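import Mathlib
import Pool.Agent.Results.MP_ca213f_co.AllArms

set_option autoImplicit false

/-! # A spiral tiling in which the marked prototile occurs in exactly three aspects -/

namespace Pool.Agent.Results.MP_361b6b_co.ThreeAspects

open Pool.Agent.Results.MP_ca213f_co.AllArms

/-- A closed topological disk in the plane. -/
def IsDisk (T : Set Plane) : Prop := Nonempty (T ≃ₜ Metric.closedBall (0 : Plane) 1)

/-- A marked monohedral tiling of the plane with prototile `T` and marking `M`; the tiles are the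
images `φ i '' T`, and the tile `φ i '' T` carries the arcs `φ i '' A`, `A ∈ M`. -/
structure MarkedTiling (ι : Type) where
  T : Set Plane
  disk : IsDisk T
  M : Set (Set Plane)
  finite : M.Finite
  nonempty : M.Nonempty
  arcs : ∀ A ∈ M, IsArc A ∧ A ⊆ T
  φ : ι → (Plane ≃ᵢ Plane)
  cover : ⋃ i, φ i '' T = Set.univ
  disjoint : ∀ i j, i ≠ j → Disjoint (interior (φ i '' T)) (interior (φ j '' T))
  locallyFinite : ∀ B : Set Plane, Bornology.IsBounded B → {i | (φ i '' T ∩ B).Nonempty}.Finite

variable {ι : Type}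

/-- The tile with index `i`. -/
def MarkedTiling.tile (m : MarkedTiling ι) (i : ι) : Set Plane := m.φ i '' m.T

/-- The set of arcs carried by the tile with index `i`. -/
def MarkedTiling.carried (m : MarkedTiling ι) (i : ι) : Set (Set Plane) :=
  (fun A => m.φ i '' A) '' m.M

/-- The marked tiling is a spiral: the union of all carried arcs is the union of finitely many
unbounded simple curves. -/
def MarkedTiling.IsSpiral (m : MarkedTiling ι) : Prop :=
  ∃ (n : ℕ) (C : Fin n → Set Plane), (∀ k, IsUnboundedCurve (C k)) ∧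
    ⋃ i, ⋃₀ m.carried i = ⋃ k, C k

/-- Two marked tiles are in the same aspect: a translation maps the one tile onto the other and
the arcs carried by the one onto the arcs carried by the other. -/
def MarkedTiling.SameAspect (m : MarkedTiling ι) (i j : ι) : Prop :=
  ∃ v : Plane, (fun z => z + v) '' m.tile i = m.tile j ∧
    (fun A => (fun z => z + v) '' A) '' m.carried i = m.carried j

theorem MarkedTiling.sameAspect_equivalence (m : MarkedTiling ι) :
    Equivalence m.SameAspect := by
  have e1 : ∀ (v w : Plane) (S : Set Plane),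
      (fun z => z + w) '' ((fun z => z + v) '' S) = (fun z => z + (v + w)) '' S := by
    intro v w S
    rw [Set.image_image]
    simp only [add_assoc]
  have e2 : ∀ S : Set Plane, (fun z => z + (0 : Plane)) '' S = S := by
    intro S
    simp
  have e3 : ∀ (v w : Plane) (F : Set (Set Plane)),
      (fun A => (fun z => z + w) '' A) '' ((fun A => (fun z => z + v) '' A) '' F) =
        (fun A => (fun z => z + (v + w)) '' A) '' F := by
    intro v w F
    rw [Set.image_image]
    simp only [e1]
  have e4 : ∀ F : Set (Set Plane), (fun A => (fun z => z + (0 : Plane)) '' A) '' F = F := by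
    intro F
    simp only [e2]
    exact Set.image_id' F
  refine ⟨fun i => ⟨0, e2 _, e4 _⟩, ?_, ?_⟩
  · rintro i j ⟨v, h1, h2⟩
    refine ⟨-v, ?_, ?_⟩
    · rw [← h1, e1, add_neg_cancel, e2]
    · rw [← h2, e3, add_neg_cancel, e4]
  · rintro i j k ⟨v, h1, h2⟩ ⟨w, h3, h4⟩
    refine ⟨v + w, ?_, ?_⟩
    · rw [← h3, ← h1, e1]
    · rw [← h4, ← h2, e3]

/-- The equivalence relation same aspect on the tiles. -/
def MarkedTiling.aspects (m : MarkedTiling ι) : Setoid ι := ⟨m.SameAspect, m.sameAspect_equivalence⟩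

/-! ### The tiles -/

theorem lpx (f : V) : (lp f) 0 = f.1 := by
  unfold Pool.Agent.Results.MP_ca213f_co.AllArms.lp; exact pt_zero _ _

theorem lpy (f : V) : (lp f) 1 = f.2 := by
  unfold Pool.Agent.Results.MP_ca213f_co.AllArms.lp; exact pt_one _ _

theorem proto_eq : proto = {z : Plane | (0 ≤ z 0 ∧ z 0 ≤ 1) ∧ (0 ≤ z 1 ∧ z 1 ≤ 1)} := by
  ext z
  rw [mem_proto]
  rfl

theorem proto_convex : Convex ℝ proto := by
  rw [proto_eq]
  intro x hx y hy a b ha hb hab
  simp only [Set.mem_ofPred_eq] at hx hy ⊢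
  have e : ∀ i, (a • x + b • y) i = a * x i + b * y i := fun i => by simp
  rw [e, e]
  obtain ⟨⟨h1, h2⟩, h3, h4⟩ := hx
  obtain ⟨⟨g1, g2⟩, g3, g4⟩ := hy
  refine ⟨⟨by positivity, ?_⟩, by positivity, ?_⟩
  · nlinarith
  · nlinarith

theorem proto_bounded : Bornology.IsBounded proto := by
  rw [isBounded_iff_forall_norm_le]
  refine ⟨2, fun z hz => ?_⟩
  rw [mem_proto] at hz
  have h := dist_sq z 0
  rw [dist_zero_right] at h
  have h2 : ‖z‖ ^ 2 ≤ 2 ^ 2 := by
    rw [h]
    simp only [PiLp.zero_apply, sub_zero]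
    nlinarith [hz.1.1, hz.1.2, hz.2.1, hz.2.2]
  exact (sq_le_sq₀ (norm_nonneg _) (by norm_num)).1 h2

theorem proto_closed : IsClosed proto := by
  rw [proto_eq]
  have h0 : Continuous fun z : Plane => z 0 := by fun_prop
  have h1 : Continuous fun z : Plane => z 1 := by fun_prop
  exact ((isClosed_le continuous_const h0).inter (isClosed_le h0 continuous_const)).inter
    ((isClosed_le continuous_const h1).inter (isClosed_le h1 continuous_const))

theorem proto_interior : (interior proto).Nonempty := by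
  refine ⟨pt (1/2) (1/2), ?_⟩
  rw [mem_interior]
  refine ⟨{z : Plane | (0 < z 0 ∧ z 0 < 1) ∧ (0 < z 1 ∧ z 1 < 1)}, ?_, ?_, ?_⟩
  · rintro z ⟨⟨h1, h2⟩, h3, h4⟩
    rw [mem_proto]
    exact ⟨⟨h1.le, h2.le⟩, h3.le, h4.le⟩
  · have h0 : Continuous fun z : Plane => z 0 := by fun_prop
    have h1 : Continuous fun z : Plane => z 1 := by fun_prop
    exact ((isOpen_lt continuous_const h0).inter (isOpen_lt h0 continuous_const)).inter
      ((isOpen_lt continuous_const h1).inter (isOpen_lt h1 continuous_const))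
  · simp only [Set.mem_ofPred_eq, pt_zero, pt_one]
    norm_num

theorem proto_disk : IsDisk proto := by
  obtain ⟨h, -, h2, -⟩ := exists_homeomorph_image_interior_closure_frontier_eq_unitBall
    proto_convex proto_interior proto_bounded
  rw [proto_closed.closure_eq] at h2
  exact ⟨(h.image proto).trans (Homeomorph.setCongr h2)⟩

/-- The interior of a tile is contained in the open square. -/
theorem interior_tile {a b : ℤ} {z : Plane} (hz : z ∈ interior (tileAt a b)) :
    (a < z 0 ∧ z 0 < a + 1) ∧ (b < z 1 ∧ z 1 < b + 1) := by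
  rw [mem_interior_iff_mem_nhds, Metric.mem_nhds_iff] at hz
  obtain ⟨ε, hε, hb⟩ := hz
  have key : ∀ s t : ℝ, s ^ 2 + t ^ 2 < ε ^ 2 → z + pt s t ∈ tileAt a b := by
    intro s t hst
    apply hb
    rw [Metric.mem_ball]
    have e := dist_sq (z + pt s t) z
    have e2 : dist (z + pt s t) z ^ 2 < ε ^ 2 := by
      rw [e]
      simpa using hst
    exact (sq_lt_sq₀ dist_nonneg hε.le).1 e2
  have k1 := key (ε / 2) 0 (by nlinarith)
  have k2 := key (-ε / 2) 0 (by nlinarith)
  have k3 := key 0 (ε / 2) (by nlinarith)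
  have k4 := key 0 (-ε / 2) (by nlinarith)
  simp only [tileAt, Set.mem_ofPred_eq, PiLp.add_apply, pt_zero, pt_one] at k1 k2 k3 k4
  refine ⟨⟨?_, ?_⟩, ?_, ?_⟩ <;> linarith [k1.1.1, k1.1.2, k2.1.1, k2.1.2, k3.2.1, k3.2.2, k4.2.1, k4.2.2]

theorem tiles_disjoint {f g : V} (h : f ≠ g) :
    Disjoint (interior (tileAt f.1 f.2)) (interior (tileAt g.1 g.2)) := by
  rw [Set.disjoint_left]
  intro z h1 h2
  apply h
  obtain ⟨⟨a1, a2⟩, a3, a4⟩ := interior_tile h1
  obtain ⟨⟨b1, b2⟩, b3, b4⟩ := interior_tile h2
  have c1 : f.1 < g.1 + 1 := by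
    have : (f.1 : ℝ) < g.1 + 1 := by linarith
    exact_mod_cast this
  have c2 : g.1 < f.1 + 1 := by
    have : (g.1 : ℝ) < f.1 + 1 := by linarith
    exact_mod_cast this
  have c3 : f.2 < g.2 + 1 := by
    have : (f.2 : ℝ) < g.2 + 1 := by linarith
    exact_mod_cast this
  have c4 : g.2 < f.2 + 1 := by
    have : (g.2 : ℝ) < f.2 + 1 := by linarith
    exact_mod_cast this
  exact Prod.ext (by omega) (by omega)

theorem tiles_cover : ⋃ f : V, tileAt f.1 f.2 = Set.univ := by
  rw [Set.eq_univ_iff_forall]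
  intro z
  refine Set.mem_iUnion.2 ⟨(⌊z 0⌋, ⌊z 1⌋), ?_⟩
  exact ⟨⟨Int.floor_le _, (Int.lt_floor_add_one _).le⟩, Int.floor_le _, (Int.lt_floor_add_one _).le⟩

theorem tiles_locallyFinite (B : Set Plane) (hB : Bornology.IsBounded B) :
    {f : V | (tileAt f.1 f.2 ∩ B).Nonempty}.Finite := by
  obtain ⟨R, hR⟩ := hB.subset_closedBall (0 : Plane)
  apply (finite_lattice (R + 2)).subset
  rintro f ⟨z, hz, hzB⟩
  have h1 := hR hzB
  rw [mem_closedBall_zero_iff] at h1
  have h2 : dist (lp f) z ≤ 2 := by
    have e := dist_sq (lp f) z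
    have h3 : dist (lp f) z ^ 2 ≤ 2 ^ 2 := by
      rw [e]
      obtain ⟨⟨a1, a2⟩, a3, a4⟩ := hz
      simp only [lpx, lpy]
      nlinarith
    exact (sq_le_sq₀ dist_nonneg (by norm_num)).1 h3
  have h4 : ‖lp f‖ ≤ ‖z‖ + dist (lp f) z := by
    rw [dist_eq_norm]
    have := norm_add_le z (lp f - z)
    rw [add_sub_cancel] at this
    exact this
  show ‖lp f‖ ≤ R + 2
  linarith

/-! ### The selected sides -/

/-- The face carries its left side. -/
def IsL (f : V) : Prop := (1 ≤ f.1 ∧ -f.1 ≤ f.2 ∧ f.2 ≤ f.1 - 1) ∨ (f.1 ≤ 0 ∧ f.2 = -f.1)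

/-- The face carries its right side. -/
def IsR (f : V) : Prop := (f.1 ≤ -1 ∧ f.1 + 1 ≤ f.2 ∧ f.2 ≤ -f.1 - 1) ∨ (1 ≤ f.1 ∧ f.2 = f.1)

instance (f : V) : Decidable (IsL f) := by unfold IsL; infer_instance
instance (f : V) : Decidable (IsR f) := by unfold IsR; infer_instance

/-- The end points of the selected side: left, right or bottom. -/
def side (f : V) : V × V :=
  if IsL f then ((f.1, f.2), (f.1, f.2 + 1))
  else if IsR f then ((f.1 + 1, f.2), (f.1 + 1, f.2 + 1))
  else ((f.1, f.2), (f.1 + 1, f.2))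

theorem side_isSide (f : V) : IsSide f (side f).1 (side f).2 := by
  unfold side IsSide
  split_ifs <;> simp

/-- Every selected side is an edge of the spiral. -/
theorem side_edge (f : V) : ∃ u : V, edge (side f).1 (side f).2 = edge u (nxt 1 u) := by
  obtain ⟨a, b⟩ := f
  unfold side
  split_ifs with h1 h2
  · rcases h1 with h1 | h1 <;> simp only at h1
    · refine ⟨(a, b + 1), ?_⟩
      have : nxt 1 (a, b + 1) = (a, b) := by
        unfold nxt
        simp only
        rw [if_pos (by omega)]
        simp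
      rw [this, edge_comm]
    · refine ⟨(a, b), ?_⟩
      have : nxt 1 (a, b) = (a, b + 1) := by
        unfold nxt
        simp only
        rw [if_neg (by omega), if_neg (by omega), if_pos (by push_cast; omega)]
      rw [this]
  · rcases h2 with h2 | h2 <;> simp only at h2
    · refine ⟨(a + 1, b), ?_⟩
      have : nxt 1 (a + 1, b) = (a + 1, b + 1) := by
        unfold nxt
        simp only
        rw [if_neg (by omega), if_neg (by omega), if_pos (by push_cast; omega)]
      rw [this]
    · refine ⟨(a + 1, b + 1), ?_⟩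
      have : nxt 1 (a + 1, b + 1) = (a + 1, b) := by
        unfold nxt
        simp only
        rw [if_pos (by omega)]
        simp
      rw [this, edge_comm]
  · unfold IsL at h1
    unfold IsR at h2
    simp only at h1 h2
    by_cases h3 : b ≤ -1 ∧ b ≤ a ∧ a ≤ -b - 1
    · refine ⟨(a + 1, b), ?_⟩
      have : nxt 1 (a + 1, b) = (a, b) := by
        unfold nxt
        simp only
        rw [if_neg (by omega), if_pos (by omega)]
        simp
      rw [this, edge_comm]
    · refine ⟨(a, b), ?_⟩
      have : nxt 1 (a, b) = (a + 1, b) := by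
        unfold nxt
        simp only
        rw [if_neg (by omega), if_neg (by omega), if_neg (by push_cast; omega)]
      rw [this]

/-- Every edge of the spiral is a selected side. -/
theorem edge_side (u : V) : ∃ f : V, edge (side f).1 (side f).2 = edge u (nxt 1 u) := by
  obtain ⟨x, y⟩ := u
  unfold nxt
  simp only
  split_ifs with h1 h2 h3
  · refine ⟨(x, y - 1), ?_⟩
    have : side (x, y - 1) = ((x, y - 1), (x, y)) := by
      unfold side
      rw [if_pos (by unfold IsL; simp only; omega)]
      simp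
    rw [this, edge_comm]
  · refine ⟨(x - 1, y), ?_⟩
    have : side (x - 1, y) = ((x - 1, y), (x, y)) := by
      unfold side
      rw [if_neg (by unfold IsL; simp only; omega), if_neg (by unfold IsR; simp only; omega)]
      simp
    rw [this, edge_comm]
  · refine ⟨(x - 1, y), ?_⟩
    have : side (x - 1, y) = ((x, y), (x, y + 1)) := by
      unfold side
      push_cast at h3
      rw [if_neg (by unfold IsL; simp only; omega), if_pos (by unfold IsR; simp only; omega)]
      simp
    rw [this]
  · refine ⟨(x, y), ?_⟩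
    have : side (x, y) = ((x, y), (x + 1, y)) := by
      unfold side
      push_cast at h3
      rw [if_neg (by unfold IsL; simp only; omega), if_neg (by unfold IsR; simp only; omega)]
    rw [this]

/-- The isometry of a tile. -/
noncomputable def phi (f : V) : Plane ≃ᵢ Plane := (exists_iso f _ _ (side_isSide f)).choose

theorem phi_tile (f : V) : phi f '' proto = tileAt f.1 f.2 :=
  (exists_iso f _ _ (side_isSide f)).choose_spec.1

theorem phi_edge (f : V) : phi f '' edge (0, 0) (1, 0) = edge (side f).1 (side f).2 :=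
  (exists_iso f _ _ (side_isSide f)).choose_spec.2

/-- The marked tiling. -/
noncomputable def spiral : MarkedTiling V where
  T := proto
  disk := proto_disk
  M := {edge (0, 0) (1, 0)}
  finite := Set.finite_singleton _
  nonempty := Set.singleton_nonempty _
  arcs := by
    rintro A hA
    rw [Set.mem_singleton_iff] at hA
    subst hA
    exact ⟨isArc_edge, edge_sub_proto⟩
  φ := phi
  cover := by simp only [phi_tile]; exact tiles_cover
  disjoint := by
    intro f g h
    rw [phi_tile, phi_tile]
    exact tiles_disjoint h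
  locallyFinite := by
    intro B hB
    simp only [phi_tile]
    exact tiles_locallyFinite B hB

theorem spiral_tile (f : V) : spiral.tile f = tileAt f.1 f.2 := phi_tile f

theorem spiral_carried (f : V) : spiral.carried f = {edge (side f).1 (side f).2} := by
  unfold MarkedTiling.carried
  show (fun A => phi f '' A) '' {edge (0, 0) (1, 0)} = _
  rw [Set.image_singleton, phi_edge]

theorem spiral_isSpiral : spiral.IsSpiral := by
  have hinj : Function.Injective (arm (0 : Fin 1)) := fun k l h =>
    (arm_injective (le_refl 1) h).2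
  have hadj : ∀ k : ℕ, Adj (arm (0 : Fin 1) k) (arm (0 : Fin 1) (k + 1)) := by
    intro k
    rw [arm_succ]
    exact nxt_adj 1 _
  refine ⟨1, fun _ => ⋃ k, edge (arm (0 : Fin 1) k) (arm (0 : Fin 1) (k + 1)),
    fun _ => isUnboundedCurve_path hinj hadj, ?_⟩
  ext z
  simp only [spiral_carried, Set.sUnion_singleton, Set.mem_iUnion]
  constructor
  · rintro ⟨f, hz⟩
    obtain ⟨u, hu⟩ := side_edge f
    obtain ⟨i, k, hk⟩ := covered (le_refl 1) u
    have hi : i = 0 := Subsingleton.elim _ _
    subst hi
    refine ⟨0, k, ?_⟩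
    rw [arm_succ, hk, ← hu]
    exact hz
  · rintro ⟨-, k, hz⟩
    rw [arm_succ] at hz
    obtain ⟨f, hf⟩ := edge_side (arm (0 : Fin 1) k)
    exact ⟨f, by rw [hf]; exact hz⟩

/-! ### The aspects -/

/-- The kind of the selected side: left, right or bottom. -/
def kind (f : V) : Fin 3 := if IsL f then 0 else if IsR f then 1 else 2

theorem mem_trans {v : Plane} {S : Set Plane} {z : Plane} :
    z ∈ (fun w => w + v) '' S ↔ z - v ∈ S := by
  constructor
  · rintro ⟨w, hw, rfl⟩
    simpa using hw
  · intro h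
    exact ⟨z - v, h, by simp⟩

theorem tile_trans (f g : V) :
    (fun z => z + (lp g - lp f)) '' tileAt f.1 f.2 = tileAt g.1 g.2 := by
  ext z
  rw [mem_trans]
  simp only [tileAt, Set.mem_ofPred_eq, PiLp.sub_apply, lpx, lpy]
  constructor
  · rintro ⟨⟨h1, h2⟩, h3, h4⟩
    refine ⟨⟨?_, ?_⟩, ?_, ?_⟩ <;> linarith
  · rintro ⟨⟨h1, h2⟩, h3, h4⟩
    refine ⟨⟨?_, ?_⟩, ?_, ?_⟩ <;> linarith

/-- A translation mapping one tile to another is the translation of the corners. -/
theorem trans_eq {f g : V} {v : Plane}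
    (h : (fun z => z + v) '' tileAt f.1 f.2 = tileAt g.1 g.2) : v = lp g - lp f := by
  have h1 : lp f + v ∈ tileAt g.1 g.2 := by
    rw [← h]
    refine ⟨lp f, ?_, rfl⟩
    simp [tileAt, lpx, lpy]
  have h2 : pt (f.1 + 1) (f.2 + 1) + v ∈ tileAt g.1 g.2 := by
    rw [← h]
    refine ⟨pt (f.1 + 1) (f.2 + 1), ?_, rfl⟩
    simp [tileAt]
  simp only [tileAt, Set.mem_ofPred_eq, PiLp.add_apply, lpx, lpy, pt_zero, pt_one] at h1 h2
  apply ext2
  · simp only [PiLp.sub_apply, lpx]
    linarith [h1.1.1, h1.1.2, h2.1.1, h2.1.2]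
  · simp only [PiLp.sub_apply, lpy]
    linarith [h1.2.1, h1.2.2, h2.2.1, h2.2.2]

theorem mem_side_L {f : V} (h : IsL f) {z : Plane} :
    z ∈ edge (side f).1 (side f).2 ↔ z 0 = f.1 ∧ f.2 ≤ z 1 ∧ z 1 ≤ f.2 + 1 := by
  unfold side
  rw [if_pos h]
  exact mem_edge_v

theorem mem_side_R {f : V} (h0 : ¬ IsL f) (h : IsR f) {z : Plane} :
    z ∈ edge (side f).1 (side f).2 ↔ z 0 = f.1 + 1 ∧ f.2 ≤ z 1 ∧ z 1 ≤ f.2 + 1 := by
  unfold side
  rw [if_neg h0, if_pos h]
  have := mem_edge_v (a := f.1 + 1) (b := f.2) (z := z)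
  push_cast at this
  exact this

theorem mem_side_B {f : V} (h0 : ¬ IsL f) (h : ¬ IsR f) {z : Plane} :
    z ∈ edge (side f).1 (side f).2 ↔ z 1 = f.2 ∧ f.1 ≤ z 0 ∧ z 0 ≤ f.1 + 1 := by
  unfold side
  rw [if_neg h0, if_neg h]
  exact mem_edge_h

theorem side_trans {f g : V} (h : kind f = kind g) :
    (fun z => z + (lp g - lp f)) '' edge (side f).1 (side f).2 = edge (side g).1 (side g).2 := by
  ext z
  rw [mem_trans]
  unfold kind at h
  by_cases f1 : IsL f
  · have g1 : IsL g := by
      by_contra g1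
      rw [if_pos f1, if_neg g1] at h
      split_ifs at h <;> simp at h
    rw [mem_side_L f1, mem_side_L g1]
    simp only [PiLp.sub_apply, lpx, lpy]
    constructor
    · rintro ⟨h1, h2, h3⟩
      refine ⟨?_, ?_, ?_⟩ <;> linarith
    · rintro ⟨h1, h2, h3⟩
      refine ⟨?_, ?_, ?_⟩ <;> linarith
  have g1 : ¬ IsL g := by
    intro g1
    rw [if_neg f1, if_pos g1] at h
    split_ifs at h <;> simp at h
  rw [if_neg f1, if_neg g1] at h
  by_cases f2 : IsR f
  · have g2 : IsR g := by
      by_contra g2
      rw [if_pos f2, if_neg g2] at h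
      simp at h
    rw [mem_side_R f1 f2, mem_side_R g1 g2]
    simp only [PiLp.sub_apply, lpx, lpy]
    constructor
    · rintro ⟨h1, h2, h3⟩
      refine ⟨?_, ?_, ?_⟩ <;> linarith
    · rintro ⟨h1, h2, h3⟩
      refine ⟨?_, ?_, ?_⟩ <;> linarith
  have g2 : ¬ IsR g := by
    intro g2
    rw [if_neg f2, if_pos g2] at h
    simp at h
  rw [mem_side_B f1 f2, mem_side_B g1 g2]
  simp only [PiLp.sub_apply, lpx, lpy]
  constructor
  · rintro ⟨h1, h2, h3⟩
    refine ⟨?_, ?_, ?_⟩ <;> linarith
  · rintro ⟨h1, h2, h3⟩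
    refine ⟨?_, ?_, ?_⟩ <;> linarith

theorem kind_of_trans {f g : V}
    (h : (fun z => z + (lp g - lp f)) '' edge (side f).1 (side f).2 =
      edge (side g).1 (side g).2) : kind f = kind g := by
  have key : ∀ s t : ℝ, pt (f.1 + s) (f.2 + t) ∈ edge (side f).1 (side f).2 →
      pt (g.1 + s) (g.2 + t) ∈ edge (side g).1 (side g).2 := by
    intro s t hst
    rw [← h]
    refine ⟨_, hst, ?_⟩
    apply ext2
    · simp only [PiLp.add_apply, PiLp.sub_apply, lpx, pt_zero]; ring
    · simp only [PiLp.add_apply, PiLp.sub_apply, lpy, pt_one]; ring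
  have k00 := key 0 0
  have k10 := key 1 0
  have k01 := key 0 1
  have k11 := key 1 1
  unfold kind
  by_cases f1 : IsL f
  · rw [mem_side_L f1] at k00 k10 k01 k11
    by_cases g1 : IsL g
    · rw [if_pos f1, if_pos g1]
    · exfalso
      by_cases g2 : IsR g
      · rw [mem_side_R g1 g2] at k00
        simp at k00
      · rw [mem_side_B g1 g2] at k01
        simp at k01
  by_cases f2 : IsR f
  · rw [mem_side_R f1 f2] at k00 k10 k01 k11
    by_cases g1 : IsL g
    · exfalso
      rw [mem_side_L g1] at k10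
      simp at k10
    by_cases g2 : IsR g
    · rw [if_neg f1, if_pos f2, if_neg g1, if_pos g2]
    · exfalso
      rw [mem_side_B g1 g2] at k11
      simp at k11
  rw [mem_side_B f1 f2] at k00 k10 k01 k11
  by_cases g1 : IsL g
  · exfalso
    rw [mem_side_L g1] at k10
    simp at k10
  by_cases g2 : IsR g
  · exfalso
    rw [mem_side_R g1 g2] at k00
    simp at k00
  rw [if_neg f1, if_neg f2, if_neg g1, if_neg g2]

theorem sameAspect_iff (f g : V) : spiral.SameAspect f g ↔ kind f = kind g := by
  unfold MarkedTiling.SameAspect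
  rw [spiral_tile, spiral_tile, spiral_carried, spiral_carried]
  constructor
  · rintro ⟨v, h1, h2⟩
    rw [trans_eq h1, Set.image_singleton, Set.singleton_eq_singleton_iff] at h2
    exact kind_of_trans h2
  · intro h
    exact ⟨lp g - lp f, tile_trans f g, by rw [Set.image_singleton, side_trans h]⟩

theorem kind_surjective : Function.Surjective kind := by
  intro i
  fin_cases i
  · exact ⟨(0, 0), by simp [kind, IsL]⟩
  · exact ⟨(1, 1), by simp [kind, IsL, IsR]⟩
  · exact ⟨(0, 1), by simp [kind, IsL, IsR]⟩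

theorem card_aspects : Nat.card (Quotient spiral.aspects) = 3 := by
  have e : Quotient spiral.aspects ≃ Fin 3 :=
    Equiv.ofBijective (Quotient.lift kind (fun f g h => (sameAspect_iff f g).1 h)) (by
      constructor
      · intro p q
        refine Quotient.inductionOn₂ p q ?_
        intro f g h
        exact Quotient.sound ((sameAspect_iff f g).2 h)
      · intro i
        obtain ⟨f, hf⟩ := kind_surjective i
        exact ⟨Quotient.mk _ f, hf⟩)
  rw [Nat.card_congr e, Nat.card_eq_fintype_card, Fintype.card_fin]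

/-- There is a spiral tiling in which the marked prototile occurs in exactly three aspects. -/
theorem result : ∃ (ι : Type) (m : MarkedTiling ι), m.IsSpiral ∧
    Nat.card (Quotient m.aspects) = 3 :=
  ⟨V, spiral, spiral_isSpiral, card_aspects⟩

end Pool.Agent.Results.MP_361b6b_co.ThreeAspects
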